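import Pool.Agent.Helper80.HG.StL

/-!
# Project HG (MP_1bacb5_al), part L: module EA (adjoining a primitive to a Hardy field)
-/

set_option autoImplicit false

namespace Pool.Agent.Helper66.HG

open Pool.Agent.Helper80.HG Filter Topology

/-- polynomials of degree `< n` in `y` over `K` -/
private def D (K : Set (ℝ → ℝ)) (y : ℝ → ℝ) : ℕ → (ℝ → ℝ) → Prop
  | 0, f => ∀ᶠ x in atTop, f x = 0
  | n + 1, f => ∃ a ∈ K, ∃ g, D K y n g ∧ ∀ᶠ x in atTop, f x = a x * y x ^ n + g x

private theorem ev_nhds {p : ℝ → Prop} (h : ∀ᶠ x in atTop, p x) :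
    ∀ᶠ x in (atTop : Filter ℝ), ∀ᶠ z in 𝓝 x, p z := by
  obtain ⟨A, hA⟩ := eventually_atTop.1 h
  filter_upwards [eventually_gt_atTop A] with x hx
  filter_upwards [Ioi_mem_nhds hx] with z hz
  exact hA z (le_of_lt hz)

section

variable {K : Set (ℝ → ℝ)} {y : ℝ → ℝ}

private theorem D_congr {n : ℕ} {f g : ℝ → ℝ} (h : D K y n f) (e : ∀ᶠ x in atTop, f x = g x) :
    D K y n g := by
  cases n with
  | zero =>
    change ∀ᶠ x in atTop, g x = 0
    have h' : ∀ᶠ x in atTop, f x = 0 := h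
    filter_upwards [h', e] with x h1 h2
    rw [← h2, h1]
  | succ n =>
    obtain ⟨a, ha, g', hg', he⟩ := h
    refine ⟨a, ha, g', hg', ?_⟩
    filter_upwards [he, e] with x h1 h2
    rw [← h2, h1]

private theorem D_succ (hK : HK K) {n : ℕ} {f : ℝ → ℝ} (h : D K y n f) : D K y (n + 1) f :=
  ⟨fun _ => 0, hK.const 0, f, h, Eventually.of_forall fun x => by simp⟩

private theorem D_le (hK : HK K) {n m : ℕ} (hnm : n ≤ m) {f : ℝ → ℝ} (h : D K y n f) :
    D K y m f := by
  induction hnm with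
  | refl => exact h
  | step _ ih => exact D_succ hK ih

private theorem D_zero (hK : HK K) (n : ℕ) : D K y n (fun _ => 0) :=
  D_le hK (Nat.zero_le n) (show D K y 0 (fun _ => 0) from Eventually.of_forall fun _ => rfl)

private theorem D_add (hK : HK K) : ∀ (n : ℕ) (f g : ℝ → ℝ), D K y n f → D K y n g →
    D K y n (fun x => f x + g x) := by
  intro n
  induction n with
  | zero =>
    intro f g hf hg
    have hf' : ∀ᶠ x in atTop, f x = 0 := hf
    have hg' : ∀ᶠ x in atTop, g x = 0 := hg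
    change ∀ᶠ x in atTop, f x + g x = 0
    filter_upwards [hf', hg'] with x h1 h2
    rw [h1, h2, add_zero]
  | succ n ih =>
    rintro f g ⟨a, ha, f1, hf1, ef⟩ ⟨b, hb, g1, hg1, eg⟩
    refine ⟨fun x => a x + b x, hK.add a ha b hb, fun x => f1 x + g1 x, ih _ _ hf1 hg1, ?_⟩
    filter_upwards [ef, eg] with x h1 h2
    rw [h1, h2]
    ring

private theorem D_smul (hK : HK K) {c : ℝ → ℝ} (hc : c ∈ K) : ∀ (n : ℕ) (f : ℝ → ℝ), D K y n f →
    D K y n (fun x => c x * f x) := by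
  intro n
  induction n with
  | zero =>
    intro f hf
    have hf' : ∀ᶠ x in atTop, f x = 0 := hf
    change ∀ᶠ x in atTop, c x * f x = 0
    filter_upwards [hf'] with x h1
    rw [h1, mul_zero]
  | succ n ih =>
    rintro f ⟨a, ha, f1, hf1, ef⟩
    refine ⟨fun x => c x * a x, hK.mul c hc a ha, fun x => c x * f1 x, ih _ hf1, ?_⟩
    filter_upwards [ef] with x h1
    rw [h1]
    ring

private theorem D_mulY (hK : HK K) : ∀ (n : ℕ) (f : ℝ → ℝ), D K y n f →
    D K y (n + 1) (fun x => y x * f x) := by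
  intro n
  induction n with
  | zero =>
    intro f hf
    have hf' : ∀ᶠ x in atTop, f x = 0 := hf
    refine ⟨fun _ => 0, hK.const 0, fun x => y x * f x, ?_, Eventually.of_forall fun x => by simp⟩
    change ∀ᶠ x in atTop, y x * f x = 0
    filter_upwards [hf'] with x h1
    rw [h1, mul_zero]
  | succ n ih =>
    rintro f ⟨a, ha, f1, hf1, ef⟩
    refine ⟨a, ha, fun x => y x * f1 x, ih _ hf1, ?_⟩
    filter_upwards [ef] with x h1
    rw [h1]
    ring

private theorem D_mulYpow (hK : HK K) (k : ℕ) {n : ℕ} {f : ℝ → ℝ} (hf : D K y n f) :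
    D K y (n + k) (fun x => y x ^ k * f x) := by
  induction k with
  | zero => exact D_congr hf (Eventually.of_forall fun x => by simp)
  | succ k ih =>
    have := D_mulY hK _ _ ih
    refine D_congr this (Eventually.of_forall fun x => ?_)
    ring

private theorem D_mul (hK : HK K) : ∀ (n : ℕ) (f : ℝ → ℝ), D K y n f → ∀ (m : ℕ) (g : ℝ → ℝ),
    D K y m g → ∃ k, D K y k (fun x => f x * g x) := by
  intro n
  induction n with
  | zero =>
    intro f hf m g _
    have hf' : ∀ᶠ x in atTop, f x = 0 := hf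
    refine ⟨0, ?_⟩
    change ∀ᶠ x in atTop, f x * g x = 0
    filter_upwards [hf'] with x h1
    rw [h1, zero_mul]
  | succ n ih =>
    rintro f ⟨a, ha, f1, hf1, ef⟩ m g hg
    obtain ⟨k, hk⟩ := ih f1 hf1 m g hg
    have h2 := D_smul hK ha _ _ (D_mulYpow hK n hg)
    refine ⟨max k (m + n), D_congr (D_add hK _ _ _ (D_le hK (le_max_right _ _) h2)
      (D_le hK (le_max_left _ _) hk)) ?_⟩
    filter_upwards [ef] with x h1
    rw [h1]
    ring

private theorem D_mono (hK : HK K) {c : ℝ → ℝ} (hc : c ∈ K) (m : ℕ) :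
    D K y (m + 1) (fun x => c x * y x ^ m) :=
  ⟨c, hc, fun _ => 0, D_zero hK m, Eventually.of_forall fun x => by simp⟩

private theorem powD (hK : HK K) {s : ℝ → ℝ} (hs : s ∈ K)
    (hy : ∀ᶠ x in atTop, HasDerivAt y (s x) x) (n : ℕ) :
    ∃ p, D K y n p ∧ ∀ᶠ x in atTop, HasDerivAt (fun x => y x ^ n) (p x) x := by
  cases n with
  | zero =>
    refine ⟨fun _ => 0, D_zero hK 0, Eventually.of_forall fun x => ?_⟩
    simpa using hasDerivAt_const x (1 : ℝ)
  | succ m =>
    refine ⟨fun x => (((m : ℝ) + 1) * s x) * y x ^ m, D_mono hK (hK.mul _ (hK.const _) _ hs) m, ?_⟩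
    filter_upwards [hy] with x h
    have h2 := h.pow (m + 1)
    refine (HasDerivAt.congr_deriv h2 ?_)
    push_cast
    try simp only [Nat.add_sub_cancel]
    ring

private theorem D_deriv (hK : HK K) {s : ℝ → ℝ} (hs : s ∈ K)
    (hy : ∀ᶠ x in atTop, HasDerivAt y (s x) x) : ∀ (n : ℕ) (f : ℝ → ℝ), D K y n f →
    ∃ f', D K y n f' ∧ ∀ᶠ x in atTop, HasDerivAt f (f' x) x := by
  intro n
  induction n with
  | zero =>
    intro f hf
    have hf' : ∀ᶠ x in atTop, f x = 0 := hf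
    refine ⟨fun _ => 0, D_zero hK 0, ?_⟩
    filter_upwards [ev_nhds hf'] with x hx
    exact (hasDerivAt_const x (0 : ℝ)).congr_of_eventuallyEq hx
  | succ n ih =>
    rintro f ⟨a, ha, g, hg, ef⟩
    obtain ⟨a', ha', hda⟩ := hK.deriv a ha
    obtain ⟨p, hp, hdp⟩ := powD hK hs hy n
    obtain ⟨g', hg', hdg⟩ := ih g hg
    refine ⟨fun x => a' x * y x ^ n + (a x * p x + g' x),
      ⟨a', ha', fun x => a x * p x + g' x, D_add hK _ _ _ (D_smul hK ha _ _ hp) hg',
        Eventually.of_forall fun _ => rfl⟩, ?_⟩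
    filter_upwards [ev_nhds ef, hda, hdp, hdg] with x hx h1 h2 h3
    have h4 : HasDerivAt (fun z => a z * y z ^ n + g z) (a' x * y x ^ n + a x * p x + g' x) x :=
      (h1.mul h2).add h3
    refine HasDerivAt.congr_deriv (h4.congr_of_eventuallyEq hx) ?_
    ring

end

/-- a monotone germ has a sign -/
private theorem sgn_mono {h h' : ℝ → ℝ} (hd : ∀ᶠ x in atTop, HasDerivAt h (h' x) x)
    (hs : ∀ᶠ x in atTop, 0 ≤ h' x) :
    (∀ᶠ x in atTop, h x = 0) ∨ (∀ᶠ x in atTop, 0 < h x) ∨ ∀ᶠ x in atTop, h x < 0 := by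
  obtain ⟨A, hA⟩ := eventually_atTop.1 (hd.and hs)
  have hm : MonotoneOn h (Set.Ici A) := by
    refine monotoneOn_of_deriv_nonneg (convex_Ici A)
      (fun x hx => ((hA x hx).1.continuousAt).continuousWithinAt) ?_ ?_
    · intro x hx
      rw [interior_Ici] at hx
      exact ((hA x (le_of_lt hx)).1.differentiableAt).differentiableWithinAt
    · intro x hx
      rw [interior_Ici] at hx
      rw [(hA x (le_of_lt hx)).1.deriv]
      exact (hA x (le_of_lt hx)).2
  by_cases h1 : ∃ x₀, A ≤ x₀ ∧ 0 < h x₀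
  · obtain ⟨x₀, hx₀, hp⟩ := h1
    refine Or.inr (Or.inl ?_)
    filter_upwards [eventually_ge_atTop x₀] with x hx
    exact lt_of_lt_of_le hp (hm hx₀ (le_trans hx₀ hx) hx)
  by_cases h2 : ∃ x₀, A ≤ x₀ ∧ h x₀ = 0
  · obtain ⟨x₀, hx₀, hp⟩ := h2
    refine Or.inl ?_
    filter_upwards [eventually_ge_atTop x₀] with x hx
    have h3 := hm hx₀ (le_trans hx₀ hx) hx
    have h4 : ¬ 0 < h x := fun h5 => h1 ⟨x, le_trans hx₀ hx, h5⟩
    rw [hp] at h3
    exact le_antisymm (not_lt.1 h4) h3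
  · refine Or.inr (Or.inr ?_)
    filter_upwards [eventually_ge_atTop A] with x hx
    have h4 : ¬ 0 < h x := fun h5 => h1 ⟨x, hx, h5⟩
    have h5 : h x ≠ 0 := fun h6 => h2 ⟨x, hx, h6⟩
    exact lt_of_le_of_ne (not_lt.1 h4) h5

private theorem sgn_deriv {h h' : ℝ → ℝ} (hd : ∀ᶠ x in atTop, HasDerivAt h (h' x) x)
    (hs : (∀ᶠ x in atTop, h' x = 0) ∨ (∀ᶠ x in atTop, 0 < h' x) ∨ ∀ᶠ x in atTop, h' x < 0) :
    (∀ᶠ x in atTop, h x = 0) ∨ (∀ᶠ x in atTop, 0 < h x) ∨ ∀ᶠ x in atTop, h x < 0 := by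
  rcases hs with hs | hs | hs
  · exact sgn_mono hd (hs.mono fun x hx => le_of_eq hx.symm)
  · exact sgn_mono hd (hs.mono fun x hx => le_of_lt hx)
  · have hd' : ∀ᶠ x in atTop, HasDerivAt (fun z => - h z) (- h' x) x :=
      hd.mono fun x hx => hx.neg
    have hs' : ∀ᶠ x in atTop, 0 ≤ - h' x := hs.mono fun x hx => by linarith
    rcases sgn_mono hd' hs' with h1 | h1 | h1
    · exact Or.inl (h1.mono fun x hx => by linarith)
    · exact Or.inr (Or.inr (h1.mono fun x hx => by linarith))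
    · exact Or.inr (Or.inl (h1.mono fun x hx => by linarith))

private theorem D_sign {K : Set (ℝ → ℝ)} {y : ℝ → ℝ} (hK : HK K) {s : ℝ → ℝ} (hs : s ∈ K)
    (hy : ∀ᶠ x in atTop, HasDerivAt y (s x) x) : ∀ (n : ℕ) (f : ℝ → ℝ), D K y n f →
    (∀ᶠ x in atTop, f x = 0) ∨ (∀ᶠ x in atTop, 0 < f x) ∨ ∀ᶠ x in atTop, f x < 0 := by
  intro n
  induction n with
  | zero =>
    intro f hf
    exact Or.inl hf
  | succ n ih =>
    rintro f ⟨a, ha, g, hg, ef⟩
    -- the monic part
    have hmon : (∀ᶠ x in atTop, a x ≠ 0) →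
        (∀ᶠ x in atTop, y x ^ n + (a x)⁻¹ * g x = 0) ∨
        (∀ᶠ x in atTop, 0 < y x ^ n + (a x)⁻¹ * g x) ∨
        ∀ᶠ x in atTop, y x ^ n + (a x)⁻¹ * g x < 0 := by
      intro _
      have h1 := D_smul hK (hK.inv a ha) _ _ hg
      obtain ⟨q, hq, hdq⟩ := D_deriv hK hs hy n _ h1
      obtain ⟨p, hp, hdp⟩ := powD hK hs hy n
      refine sgn_deriv (h' := fun x => p x + q x) ?_ (ih _ (D_add hK _ _ _ hp hq))
      filter_upwards [hdq, hdp] with x h2 h3
      exact h3.add h2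
    have hf : ∀ᶠ x in atTop, a x ≠ 0 → f x = a x * (y x ^ n + (a x)⁻¹ * g x) := by
      filter_upwards [ef] with x hx h0
      rw [hx, mul_add, ← mul_assoc, mul_inv_cancel₀ h0, one_mul]
    rcases hK.sign a ha with h0 | h0 | h0
    · rcases ih g hg with h1 | h1 | h1
      · refine Or.inl ?_
        filter_upwards [ef, h0, h1] with x e1 e2 e3
        rw [e1, e2, e3]; ring
      · refine Or.inr (Or.inl ?_)
        filter_upwards [ef, h0, h1] with x e1 e2 e3
        rw [e1, e2]; linarith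
      · refine Or.inr (Or.inr ?_)
        filter_upwards [ef, h0, h1] with x e1 e2 e3
        rw [e1, e2]; linarith
    · rcases hmon (h0.mono fun x hx => ne_of_gt hx) with h1 | h1 | h1
      · refine Or.inl ?_
        filter_upwards [hf, h0, h1] with x e1 e2 e3
        rw [e1 (ne_of_gt e2), e3, mul_zero]
      · refine Or.inr (Or.inl ?_)
        filter_upwards [hf, h0, h1] with x e1 e2 e3
        rw [e1 (ne_of_gt e2)]
        exact mul_pos e2 e3
      · refine Or.inr (Or.inr ?_)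
        filter_upwards [hf, h0, h1] with x e1 e2 e3
        rw [e1 (ne_of_gt e2)]
        exact mul_neg_of_pos_of_neg e2 e3
    · rcases hmon (h0.mono fun x hx => ne_of_lt hx) with h1 | h1 | h1
      · refine Or.inl ?_
        filter_upwards [hf, h0, h1] with x e1 e2 e3
        rw [e1 (ne_of_lt e2), e3, mul_zero]
      · refine Or.inr (Or.inr ?_)
        filter_upwards [hf, h0, h1] with x e1 e2 e3
        rw [e1 (ne_of_lt e2)]
        exact mul_neg_of_neg_of_pos e2 e3
      · refine Or.inr (Or.inl ?_)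
        filter_upwards [hf, h0, h1] with x e1 e2 e3
        rw [e1 (ne_of_lt e2)]
        exact mul_pos_of_neg_of_neg e2 e3

theorem hEA : StEA := by
  intro hFR K hK y s hs hy
  have hR := hFR {f | ∃ n, D K y n f}
    (fun f hf g e => by
      obtain ⟨n, hn⟩ := hf
      exact ⟨n, D_congr hn e⟩)
    (fun c => ⟨1, D_congr (D_mono hK (hK.const c) 0) (Eventually.of_forall fun x => by simp)⟩)
    (fun f hf g hg => by
      obtain ⟨n, hn⟩ := hf
      obtain ⟨m, hm⟩ := hg
      exact ⟨max n m, D_add hK _ _ _ (D_le hK (le_max_left _ _) hn)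
        (D_le hK (le_max_right _ _) hm)⟩)
    (fun f hf g hg => by
      obtain ⟨n, hn⟩ := hf
      obtain ⟨m, hm⟩ := hg
      exact D_mul hK n f hn m g hm)
    (fun f hf => by
      obtain ⟨n, hn⟩ := hf
      exact D_sign hK hs hy n f hn)
    (fun f hf => by
      obtain ⟨n, hn⟩ := hf
      obtain ⟨f', h1, h2⟩ := D_deriv hK hs hy n f hn
      exact ⟨f', ⟨n, h1⟩, h2⟩)
  obtain ⟨F, hF, hRF⟩ := hR
  refine ⟨F, hF, fun f hf => hRF ⟨1, ?_⟩, hRF ⟨2, ?_⟩⟩
  · exact D_congr (D_mono hK hf 0) (Eventually.of_forall fun x => by simp)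
  · exact D_congr (D_mono hK (hK.const 1) 1) (Eventually.of_forall fun x => by simp)

end Pool.Agent.Helper66.HG
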